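import Pool.Agent.MHP.StmtsC

/-!
# Squad MHP, row CMA: the composition property of atomic formulas
-/

set_option autoImplicit false

open scoped Classical

namespace Pool.Agent.MHP.H2

open Pool.Agent.HMT Pool.Agent.MHP

theorem pl_eq_some (K A : PG) (p : VG K A) (v : K.V) :
    pl K A p = some v ↔ p = Sum.inl v := by
  rcases p with w | w
  · simp [pl]
  · simp [pl]

theorem pr_eq_some (K A : PG) (p : VG K A) (v : A.V) :
    pr K A p = some v ↔ p = emb A.r K.r v := by
  rcases p with w | w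
  · rw [inl_eq_emb]
    by_cases hw : w = K.r
    · simp only [pr, hw, if_true, Option.some.injEq, true_and]
      exact eq_comm
    · simp [pr, hw]
  · by_cases hv : v = A.r
    · rw [hv, emb_root]
      simp only [pr, Option.some.injEq, reduceCtorEq, iff_false]
      exact w.2
    · rw [emb_of_ne _ _ _ hv]
      simp only [pr, Option.some.injEq, Sum.inr.injEq]
      exact ⟨fun h => Subtype.ext h, fun h => congrArg Subtype.val h⟩

theorem cma : CmaStmt := by
  refine ⟨fun a b c i j => ?_, fun a b c i j => ?_, fun a b c i k => ?_, fun a b c i j k => ?_⟩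
  · refine ⟨Prop, inferInstance, fun A v => ∃ u, v.x i = some u ∧ v.x j = some u,
      fun p q => p ∨ q, fun K A x X F _ => ?_⟩
    simp only [Sat, vl, vr, pl_eq_some, pr_eq_some]
    constructor
    · intro h
      rcases inl_or_emb A.r K.r (x i) with ⟨u, hu⟩ | ⟨u, _, hu⟩
      · exact Or.inl ⟨u, hu, h ▸ hu⟩
      · exact Or.inr ⟨u, hu, h ▸ hu⟩
    · rintro (⟨u, h1, h2⟩ | ⟨u, h1, h2⟩)
      · rw [h1, h2]
      · rw [h1, h2]
  · refine ⟨Prop, inferInstance,
      fun A v => ∃ u w, v.x i = some u ∧ v.x j = some w ∧ A.G.Adj u w,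
      fun p q => p ∨ q, fun K A x X F _ => ?_⟩
    simp only [Sat, vl, vr, pl_eq_some, pr_eq_some]
    exact glue_adj_iff K.G K.r A.G A.r (x i) (x j)
  · refine ⟨Prop, inferInstance, fun A v => ∃ u, v.x i = some u ∧ u ∈ v.X k,
      fun p q => p ∨ q, fun K A x X F _ => ?_⟩
    simp only [Sat, vl, vr, pl_eq_some, pr_eq_some, Set.mem_setOf_eq]
    constructor
    · intro h
      rcases inl_or_emb A.r K.r (x i) with ⟨u, hu⟩ | ⟨u, _, hu⟩
      · exact Or.inl ⟨u, hu, hu ▸ h⟩
      · exact Or.inr ⟨u, hu, hu ▸ h⟩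
    · rintro (⟨u, h1, h2⟩ | ⟨u, h1, h2⟩)
      · rw [h1]; exact h2
      · rw [h1]; exact h2
  · refine ⟨Prop, inferInstance,
      fun A v => ∃ u w, v.x i = some u ∧ v.x j = some w ∧ s(u, w) ∈ v.F k,
      fun p q => p ∨ q, fun K A x X F hF => ?_⟩
    simp only [Sat, vl, vr, pl_eq_some, pr_eq_some, Set.mem_setOf_eq, Sym2.map_mk]
    constructor
    · intro h
      have hadj : (gl K A).Adj (x i) (x j) := hF k h
      rcases (glue_adj_iff K.G K.r A.G A.r (x i) (x j)).1 hadj with
        ⟨u, w, hu, hw, _⟩ | ⟨u, w, hu, hw, _⟩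
      · refine Or.inl ⟨u, w, hu, hw, ?_⟩
        rw [hu, hw] at h
        exact h
      · refine Or.inr ⟨u, w, hu, hw, ?_⟩
        rw [hu, hw] at h
        exact h
    · rintro (⟨u, w, h1, h2, h3⟩ | ⟨u, w, h1, h2, h3⟩)
      · rw [h1, h2]; exact h3
      · rw [h1, h2]; exact h3

end Pool.Agent.MHP.H2
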